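import Pool.Agent.H567.PP.Stm

/-! PP-2: the valuation of the truncated logarithm (task of helper567). -/

set_option autoImplicit false

namespace Pool.Agent.H348.PP

open Finset
open Pool.Agent.H567.PP (Lam S_LAMVAL)

theorem lamval_ineq {p v c i : ℕ} (hp : p.Prime) (hv : 1 ≤ v) (hv2 : p = 2 → 2 ≤ v) (hi : 2 ≤ i)
    (hc : p ^ c ∣ i) : c + v + 1 ≤ i * v := by
  have hle : p ^ c ≤ i := Nat.le_of_dvd (by omega) hc
  obtain ⟨j, rfl⟩ : ∃ j, i = j + 1 := ⟨i - 1, by omega⟩
  have hj : 1 ≤ j := by omega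
  rcases eq_or_ne p 2 with h2 | h2
  · have hv' := hv2 h2
    rw [h2] at hle
    have h1 : c < 2 ^ c := Nat.lt_two_pow_self
    have h3 : j * 2 ≤ j * v := Nat.mul_le_mul_left _ hv'
    have h4 : (j + 1) * v = j * v + v := by ring
    omega
  · have hp3 : 3 ≤ p := by
      have := hp.two_le
      omega
    have h1 : c + 2 ≤ j + 1 := by
      rcases Nat.eq_zero_or_pos c with h0 | h0
      · omega
      · have h5 : 3 ^ c ≤ p ^ c := Nat.pow_le_pow_left hp3 c
        have h6 : ∀ n : ℕ, 1 ≤ n → n + 2 ≤ 3 ^ n := by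
          intro n hn
          induction n, hn using Nat.le_induction with
          | base => norm_num
          | succ n hn ih => rw [pow_succ]; omega
        have := h6 c h0
        omega
    have h3 : j * 1 ≤ j * v := Nat.mul_le_mul_left _ hv
    have h4 : (j + 1) * v = j * v + v := by ring
    omega

theorem lamval : S_LAMVAL := by
  intro r p x hr hp hx hpx h4
  haveI : Fact p.Prime := ⟨hp⟩
  set v := padicValInt p x with hv
  set f := padicValNat p r.factorial with hf
  have hpp : Prime (p : ℤ) := Nat.prime_iff_prime_int.1 hp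
  have hp0 : (p : ℤ) ≠ 0 := hpp.ne_zero
  have hv1 : 1 ≤ v := by
    have := (padicValInt_dvd_iff (p := p) 1 x).1 (by simpa using hpx)
    rcases this with h | h
    · exact absurd h hx
    · exact h
  have hv2 : p = 2 → 2 ≤ v := by
    intro h2
    have h4' := h4 h2
    have := (padicValInt_dvd_iff (p := p) 2 x).1 (by rw [h2]; exact_mod_cast h4')
    rcases this with h | h
    · exact absurd h hx
    · exact h
  have hxv : (p : ℤ) ^ v ∣ x := padicValInt_dvd x
  have hfac0 : (r.factorial : ℤ) ≠ 0 := by exact_mod_cast r.factorial_ne_zero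
  have hff : p ^ f ∣ r.factorial := pow_padicValNat_dvd
  -- the terms of index at least two
  have hterm : ∀ i ∈ Icc 2 r, (p : ℤ) ^ (f + v + 1) ∣
      (-1) ^ (i - 1) * ((r.factorial / i : ℕ) : ℤ) * x ^ i := by
    intro i hi
    obtain ⟨hi2, hir⟩ := Finset.mem_Icc.1 hi
    obtain ⟨c, i', hi', hii⟩ := Nat.exists_eq_pow_mul_and_not_dvd (n := i) (by omega) p hp.ne_one
    have hdvd : i ∣ r.factorial := Nat.dvd_factorial (by omega) hir
    have e1 : r.factorial / i * (p ^ c * i') = r.factorial := by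
      rw [← hii]; exact Nat.div_mul_cancel hdvd
    have hcop : Nat.Coprime (p ^ f) i' := Nat.Coprime.pow_left _ ((Nat.Prime.coprime_iff_not_dvd hp).2 hi')
    have e2 : p ^ f ∣ r.factorial / i * p ^ c := by
      refine hcop.dvd_of_dvd_mul_right ?_
      rw [mul_assoc, e1]; exact hff
    obtain ⟨k, hk⟩ := e2
    obtain ⟨y, hy⟩ := hxv
    have hineq := lamval_ineq hp hv1 hv2 hi2 (c := c) (by rw [hii]; exact dvd_mul_right _ _)
    obtain ⟨d, hd⟩ : ∃ d, i * v = c + (v + 1 + d) := ⟨i * v - (c + (v + 1)), by omega⟩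
    have hkz : ((r.factorial / i : ℕ) : ℤ) * (p : ℤ) ^ c = (p : ℤ) ^ f * (k : ℤ) := by
      exact_mod_cast hk
    refine ⟨(-1) ^ (i - 1) * ((k : ℤ) * (p : ℤ) ^ d * y ^ i), ?_⟩
    rw [hy, mul_pow, ← pow_mul, mul_comm v i, hd, pow_add (p : ℤ) c]
    calc (-1) ^ (i - 1) * ((r.factorial / i : ℕ) : ℤ) * ((p : ℤ) ^ c * (p : ℤ) ^ (v + 1 + d) * y ^ i)
        = (-1) ^ (i - 1) * (((r.factorial / i : ℕ) : ℤ) * (p : ℤ) ^ c) *
            ((p : ℤ) ^ (v + 1 + d) * y ^ i) := by ring
      _ = _ := by rw [hkz]; ring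
  -- decomposition
  have hLam : Lam r x = (r.factorial : ℤ) * x +
      ∑ i ∈ Icc 2 r, (-1) ^ (i - 1) * ((r.factorial / i : ℕ) : ℤ) * x ^ i := by
    have : Icc 1 r = insert 1 (Icc 2 r) := by
      ext i; simp only [Finset.mem_insert, Finset.mem_Icc]; omega
    rw [Lam, this, Finset.sum_insert (by simp)]
    simp
  have hrest : (p : ℤ) ^ (f + v + 1) ∣
      ∑ i ∈ Icc 2 r, (-1) ^ (i - 1) * ((r.factorial / i : ℕ) : ℤ) * x ^ i :=
    Finset.dvd_sum hterm
  have hmain : padicValInt p ((r.factorial : ℤ) * x) = f + v := by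
    rw [padicValInt.mul hfac0 hx, padicValInt.of_nat]
  have hmain0 : (r.factorial : ℤ) * x ≠ 0 := mul_ne_zero hfac0 hx
  have hnot : ¬ (p : ℤ) ^ (f + v + 1) ∣ (r.factorial : ℤ) * x := by
    intro h
    rcases (padicValInt_dvd_iff (p := p) _ _).1 h with h | h
    · exact hmain0 h
    · omega
  have hyes : (p : ℤ) ^ (f + v) ∣ (r.factorial : ℤ) * x := by
    rw [← hmain]; exact padicValInt_dvd _
  have hn2 : ¬ (p : ℤ) ^ (f + v + 1) ∣ Lam r x := by
    intro h
    rw [hLam] at h
    exact hnot ((dvd_add_left hrest).1 h)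
  have hy2 : (p : ℤ) ^ (f + v) ∣ Lam r x := by
    rw [hLam]
    exact dvd_add hyes ((pow_dvd_pow _ (Nat.le_succ _)).trans hrest)
  have hne : Lam r x ≠ 0 := by
    intro h; rw [h] at hn2; exact hn2 (dvd_zero _)
  refine ⟨hne, ?_⟩
  apply le_antisymm
  · by_contra hlt
    push Not at hlt
    exact hn2 ((padicValInt_dvd_iff (p := p) _ _).2 (Or.inr hlt))
  · rcases (padicValInt_dvd_iff (p := p) _ _).1 hy2 with h | h
    · exact absurd h hne
    · exact h

end Pool.Agent.H348.PP
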