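import Pool.Agent.H567.PP.Stm

/-! PP-1: the truncated logarithm is additive (task of helper567). -/

set_option autoImplicit false

namespace Pool.Agent.H348.PP

open Finset Polynomial
open Pool.Agent.H567.PP (Lam S_LOGADD)

/-- the polynomial `Lam r` -/
noncomputable def LP (r : ℕ) : ℤ[X] :=
  ∑ i ∈ Icc 1 r, C ((-1) ^ (i - 1) * ((r.factorial / i : ℕ) : ℤ)) * X ^ i

theorem LP_eval (r : ℕ) (x : ℤ) : (LP r).eval x = Lam r x := by
  simp only [LP, Lam, eval_finsetSum, eval_mul, eval_C, eval_pow, eval_X]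

theorem LP_deriv_aux (r : ℕ) : ∀ n ≤ r,
    derivative (∑ i ∈ Icc 1 n, C ((-1) ^ (i - 1) * ((r.factorial / i : ℕ) : ℤ)) * X ^ i : ℤ[X]) =
      C (r.factorial : ℤ) * ∑ i ∈ range n, (-X) ^ i := by
  intro n
  induction n with
  | zero => intro _; simp
  | succ n ih =>
    intro hn
    rw [Finset.sum_Icc_succ_top (by omega), derivative_add, ih (by omega), Finset.sum_range_succ,
      mul_add, derivative_C_mul_X_pow]
    congr 1
    have hd : (n + 1) ∣ r.factorial := Nat.dvd_factorial (by omega) hn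
    have e1 : ((r.factorial / (n + 1) : ℕ) : ℤ) * ((n + 1 : ℕ) : ℤ) = (r.factorial : ℤ) := by
      exact_mod_cast Nat.div_mul_cancel hd
    have e2 : (-1 : ℤ) ^ (n + 1 - 1) * ((r.factorial / (n + 1) : ℕ) : ℤ) * ((n + 1 : ℕ) : ℤ) =
        (r.factorial : ℤ) * (-1) ^ n := by
      rw [mul_assoc, e1, Nat.add_sub_cancel, mul_comm]
    rw [e2, Nat.add_sub_cancel, C_mul, mul_assoc]
    congr 1
    rw [neg_pow (X : ℤ[X]) n]
    simp

theorem LP_deriv (r : ℕ) : (1 + X) * derivative (LP r) = C (r.factorial : ℤ) * (1 - (-X) ^ r) := by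
  have h1 : derivative (LP r) = C (r.factorial : ℤ) * ∑ i ∈ range r, (-X) ^ i :=
    LP_deriv_aux r r le_rfl
  rw [h1]
  have h2 := geom_sum_mul (-X : ℤ[X]) r
  linear_combination (-C (r.factorial : ℤ)) * h2

theorem LP_deriv_comp (r : ℕ) (q : ℤ[X]) :
    (1 + q) * (derivative (LP r)).comp q = C (r.factorial : ℤ) * (1 - (-q) ^ r) := by
  have h := congrArg (fun p : ℤ[X] => p.comp q) (LP_deriv r)
  simpa only [mul_comp, add_comp, one_comp, X_comp, C_comp, sub_comp, pow_comp, neg_comp] using h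

theorem LP_zero (r : ℕ) : (LP r).eval 0 = 0 := by
  simp only [LP, eval_finsetSum, eval_mul, eval_C, eval_pow, eval_X]
  refine Finset.sum_eq_zero fun i hi => ?_
  have : i ≠ 0 := by
    have := (Finset.mem_Icc.1 hi).1
    omega
  rw [zero_pow this, mul_zero]

theorem logadd : S_LOGADD := by
  rintro r D x y hr ⟨u, rfl⟩ ⟨v, rfl⟩
  set z : ℤ[X] := C u * X + C v * X + C (u * v) * X ^ 2 with hz
  set P : ℤ[X] := (LP r).comp z - (LP r).comp (C u * X) - (LP r).comp (C v * X) with hP
  have hzd : derivative z = C u * (1 + C v * X) + C v * (1 + C u * X) := by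
    rw [hz, pow_two]
    simp only [derivative_add, derivative_mul, derivative_C, derivative_X, C_mul]
    ring
  have hz1 : 1 + z = (1 + C u * X) * (1 + C v * X) := by
    rw [hz, C_mul]; ring
  have hXz : (X : ℤ[X]) ∣ z := ⟨C u + C v + C (u * v) * X, by rw [hz]; ring⟩
  have e0 := LP_deriv_comp r z
  have e1 := LP_deriv_comp r (C u * X)
  have e2 := LP_deriv_comp r (C v * X)
  have hd : ((1 + C u * X) * (1 + C v * X)) * derivative P =
      C (r.factorial : ℤ) * (-(derivative z * (-z) ^ r) + C u * (1 + C v * X) * (-(C u * X)) ^ r +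
        C v * (1 + C u * X) * (-(C v * X)) ^ r) := by
    have e3 : derivative P = derivative z * (derivative (LP r)).comp z -
        C u * (derivative (LP r)).comp (C u * X) - C v * (derivative (LP r)).comp (C v * X) := by
      rw [hP, derivative_sub, derivative_sub, derivative_comp, derivative_comp, derivative_comp,
        derivative_C_mul, derivative_C_mul, derivative_X, mul_one, mul_one]
    rw [e3, ← hz1]
    have e4 : (1 + z) * (derivative z * (derivative (LP r)).comp z) =
        derivative z * (C (r.factorial : ℤ) * (1 - (-z) ^ r)) := by rw [← e0]; ring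
    have e5 : (1 + z) * (C u * (derivative (LP r)).comp (C u * X)) =
        C u * (1 + C v * X) * (C (r.factorial : ℤ) * (1 - (-(C u * X)) ^ r)) := by
      rw [← e1, hz1]; ring
    have e6 : (1 + z) * (C v * (derivative (LP r)).comp (C v * X)) =
        C v * (1 + C u * X) * (C (r.factorial : ℤ) * (1 - (-(C v * X)) ^ r)) := by
      rw [← e2, hz1]; ring
    rw [mul_sub, mul_sub, e4, e5, e6, hzd]
    ring
  have hXpow : ∀ q : ℤ[X], (X : ℤ[X]) ∣ q → (X : ℤ[X]) ^ r ∣ (-q) ^ r := fun q hq =>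
    pow_dvd_pow_of_dvd (dvd_neg.2 hq) r
  have hdiv : (X : ℤ[X]) ^ r ∣ ((1 + C u * X) * (1 + C v * X)) * derivative P := by
    rw [hd]
    refine Dvd.dvd.mul_left (dvd_add (dvd_add ?_ ?_) ?_) _
    · exact dvd_neg.2 (Dvd.dvd.mul_left (hXpow z hXz) _)
    · exact Dvd.dvd.mul_left (hXpow _ (dvd_mul_left _ _)) _
    · exact Dvd.dvd.mul_left (hXpow _ (dvd_mul_left _ _)) _
  have hcop : ∀ w : ℤ, IsCoprime (X : ℤ[X]) (1 + C w * X) := fun w => ⟨-C w, 1, by ring⟩
  have hcop2 : IsCoprime ((X : ℤ[X]) ^ r) ((1 + C u * X) * (1 + C v * X)) :=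
    ((hcop u).mul_right (hcop v)).pow_left
  have hdP : (X : ℤ[X]) ^ r ∣ derivative P := hcop2.dvd_of_dvd_mul_left hdiv
  have hPX : (X : ℤ[X]) ^ (r + 1) ∣ P := by
    rw [X_pow_dvd_iff] at hdP ⊢
    intro d hd'
    rcases Nat.eq_zero_or_pos d with h0 | h0
    · rw [h0, coeff_zero_eq_eval_zero, hP]
      simp only [eval_sub, eval_comp]
      have : z.eval 0 = 0 := by rw [hz]; simp
      rw [this]
      simp [LP_zero]
    · obtain ⟨k, rfl⟩ : ∃ k, d = k + 1 := ⟨d - 1, by omega⟩
      have := hdP k (by omega)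
      rw [coeff_derivative] at this
      rcases mul_eq_zero.1 this with h | h
      · exact h
      · exfalso
        have : (0 : ℤ) < (k : ℤ) + 1 := by positivity
        omega
  obtain ⟨R, hR⟩ := hPX
  have hev := congrArg (fun p : ℤ[X] => p.eval D) hR
  simp only [eval_mul, eval_pow, eval_X] at hev
  have hval : P.eval D = Lam r (D * u + D * v + D * u * (D * v)) - Lam r (D * u) - Lam r (D * v) := by
    rw [hP]
    simp only [eval_sub, eval_comp, LP_eval]
    have e7 : z.eval D = D * u + D * v + D * u * (D * v) := by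
      rw [hz]; simp only [eval_add, eval_mul, eval_C, eval_X, eval_pow]; ring
    have e8 : (C u * X : ℤ[X]).eval D = D * u := by
      simp only [eval_mul, eval_C, eval_X]; ring
    have e9 : (C v * X : ℤ[X]).eval D = D * v := by
      simp only [eval_mul, eval_C, eval_X]; ring
    rw [e7, e8, e9]
  rw [← hval, hev]
  exact dvd_mul_right _ _

end Pool.Agent.H348.PP
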